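import Pool.Agent.Helper66.SUBK.COREK
import Pool.Agent.Helper70.SUB.SheetW

/-! Project SUBW, row COREW: the heart of the application to `y ^ 2 - x ^ 3`, with slowly growing
coefficients, along an ultrafilter. -/

set_option autoImplicit false

namespace Pool.Agent.Helper66.SUBW

open Filter Finset Pool.Agent.Helper70.SUB Pool.Agent.Helper77.SUBK Pool.Agent.Helper70.SUBW
open Pool.Agent.Helper66.SUBK (evR evR_apply evM_zero evM_smul evM_mul drM_sub drM_mul monM_ne)

section germ

variable {M : Type} [Field M] {φ : Ultrafilter ℕ}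

omit [Field M] in
theorem gm_eq {z z' : ℕ → M} (h : gm φ z = gm φ z') : ∀ᶠ j in (φ : Filter ℕ), z j = z' j :=
  Filter.Germ.coe_eq.1 h

omit [Field M] in
theorem gm_of {z z' : ℕ → M} (h : ∀ᶠ j in (φ : Filter ℕ), z j = z' j) : gm φ z = gm φ z' :=
  Filter.Germ.coe_eq.2 h

theorem gm_add (z z' : ℕ → M) : gm φ (fun j => z j + z' j) = gm φ z + gm φ z' := rfl

theorem gm_sub (z z' : ℕ → M) : gm φ (fun j => z j - z' j) = gm φ z - gm φ z' := rfl

theorem gm_mul (z z' : ℕ → M) : gm φ (fun j => z j * z' j) = gm φ z * gm φ z' := rfl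

theorem gm_zero : gm φ (fun _ => (0 : M)) = 0 := rfl

omit [Field M] in
theorem gm_surj (g : UP M φ) : ∃ z : ℕ → M, gm φ z = g :=
  Filter.Germ.inductionOn g fun z => ⟨z, rfl⟩

theorem gm_ne {z : ℕ → M} (h : ∀ᶠ j in (φ : Filter ℕ), z j ≠ 0) : gm φ z ≠ 0 := by
  intro h0
  have h1 := gm_eq (φ := φ) (z := z) (z' := fun _ => (0 : M)) h0
  obtain ⟨j, h2, h3⟩ := (h.and h1).exists
  exact h2 h3

end germ

theorem COREW (hAV : ST_AV) (hSLW : ST_SLW) (hSLL : ST_SLL) (hLAU1 : ST_LAU1M)
    (hLAUW : ST_LAUW) (hDRV : ST_DRVW) (hNUM : ST_NUMW) : ST_COREW := by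
  intro M _ _ _ S P φ r w F G x y ε hS hε hX hw hI hF hG hx hy hxy
  classical
  set X : ℕ → ℝ := fun j => |(x j : ℝ)| with hXdef
  have hvn : (none : Option ℕ) ∈ plc S := mem_none
  have hbig : ∀ B : ℝ, ∀ᶠ j in (φ : Filter ℕ), B < X j := fun B => hX.eventually_gt_atTop B
  have hnvn : ∀ z : ℤ, P.nv none (z : M) = |(z : ℝ)| := by
    intro z
    rw [P.intCast hvn]; simp [av]
  obtain ⟨hC0, -, hq, -, hrep, hop, hdr, -, -⟩ := hSLL M S P φ X r hS hX
  have hwne : ∀ k, gm φ (w k) ≠ 0 := by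
    intro k
    refine gm_ne ((hw k).1.mono fun j hj => hj.1)
  set E := evR (fun k => gm φ (w k)) hwne with hE
  have hEv : ∀ H : LauM (UP M φ) r, evW w H = E H := fun H => rfl
  set D : LauM (UP M φ) r := G * G - F * F * F with hD
  have hDD : SlL P φ X D :=
    (hop (G * G) (F * F * F) (hop G G hG hG).2.2 (hop (F * F) F (hop F F hF hF).2.2 hF).2.2).2.1
  clear_value D
  have hxE : E F = gm φ (fun j => (x j : M)) := hx.symm
  have hyE : E G = gm φ (fun j => (y j : M)) := hy.symm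
  have hdE : E D = gm φ (fun j => ((y j ^ 2 - x j ^ 3 : ℤ) : M)) := by
    rw [hD, map_sub, map_mul, map_mul, map_mul, hxE, hyE, ← gm_mul, ← gm_mul, ← gm_mul, ← gm_sub]
    refine gm_of (Filter.Eventually.of_forall fun j => ?_)
    push_cast; ring
  -- sizes of y and d
  have hα1 : 1 / (2 + ε) ≤ 1 := by
    rw [div_le_one (by linarith)]; linarith
  have hdx : ∀ᶠ j in (φ : Filter ℕ), |((y j ^ 2 - x j ^ 3 : ℤ) : ℝ)| ≤ X j ^ (1 / (2 + ε)) :=
    hxy.mono fun j hj => hj.2
  have hsq : ∀ᶠ j in (φ : Filter ℕ), |((y j ^ 2 - x j ^ 3 : ℤ) : ℝ)| ≤ X j := by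
    filter_upwards [hdx, hbig 2] with j h1 h2
    refine h1.trans ?_
    calc X j ^ (1 / (2 + ε)) ≤ X j ^ (1 : ℝ) :=
          Real.rpow_le_rpow_of_exponent_le (by linarith) hα1
      _ = X j := Real.rpow_one _
  have hy2 : ∀ᶠ j in (φ : Filter ℕ), X j ^ 3 / 2 ≤ (y j : ℝ) ^ 2 ∧
      (y j : ℝ) ^ 2 ≤ 2 * X j ^ 3 := by
    filter_upwards [hsq, hbig 2] with j h1 h2
    push_cast at h1
    have h3 : |(x j : ℝ) ^ 3| = X j ^ 3 := abs_pow _ _
    have h4 : X j ≤ X j ^ 3 / 4 := by nlinarith [sq_nonneg (X j)]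
    have h5 := abs_le.mp h1
    have h6 : 0 ≤ (y j : ℝ) ^ 2 := sq_nonneg _
    have h7 : 0 < (x j : ℝ) ^ 3 := by
      by_contra hneg
      push Not at hneg
      rw [abs_of_nonpos hneg] at h3
      nlinarith
    rw [abs_of_pos h7] at h3
    constructor <;> nlinarith
  have hyb : ∀ᶠ j in (φ : Filter ℕ), |(y j : ℝ)| ≤ 2 * X j ^ (3 / 2 : ℝ) := by
    filter_upwards [hy2, hbig 2] with j h1 h2
    have hXp : 0 < X j := by linarith
    apply abs_le_of_sq_le_sq' _ (by positivity) |> abs_le.mpr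
    rw [mul_pow, ← Real.rpow_natCast (X j ^ (3 / 2 : ℝ)) 2, ← Real.rpow_mul hXp.le]
    have : X j ^ ((3 / 2 : ℝ) * ((2 : ℕ) : ℝ)) = X j ^ 3 := by
      rw [← Real.rpow_natCast (X j) 3]; norm_num
    rw [this]
    have h3p : 0 < X j ^ 3 := by positivity
    linarith [h1.2]
  have hpow : ∀ (K e : ℝ), 0 < e → ∀ᶠ j in (φ : Filter ℕ), K ≤ X j ^ e := by
    intro K e he
    exact ((tendsto_rpow_atTop he).comp hX).eventually_ge_atTop K
  -- exponents
  set κ : ℝ := 1 / 2 - 1 / (2 + ε) with hκ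
  have hκ0 : 0 < κ := by
    rw [hκ]
    have : 1 / (2 + ε) < 1 / 2 := one_div_lt_one_div_of_lt (by norm_num) (by linarith)
    linarith
  set e : ℝ := κ / (2 * (3 + S.card)) with he
  have he0 : 0 < e := by positivity
  -- all W vanish
  have hW : ∀ δ : Fin r → ℤ, F * drM δ G + F * drM δ G
      - (G * drM δ F + G * drM δ F + G * drM δ F) = 0 := by
    intro δ
    set W : LauM (UP M φ) r := F * drM δ G + F * drM δ G
      - (G * drM δ F + G * drM δ F + G * drM δ F) with hWdef
    clear_value W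
    obtain ⟨f', hf'⟩ := gm_surj (E (drM δ D))
    obtain ⟨g', hg'⟩ := gm_surj (E (drM δ G))
    obtain ⟨h', hh'⟩ := gm_surj (E (drM δ F))
    have hid : F * F * W = G * drM δ D - (D * drM δ G + D * drM δ G) := by
      rw [hD, drM_sub, drM_mul, drM_mul, drM_mul, hWdef]; ring
    set u : ℕ → M := fun j => (x j : M) * g' j + (x j : M) * g' j
      - ((y j : M) * h' j + (y j : M) * h' j + (y j : M) * h' j) with hu
    have huE : gm φ u = E W := by
      rw [hWdef, map_sub, map_add, map_add, map_add, map_mul, map_mul, hxE, hyE, ← hg', ← hh',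
        ← gm_mul, ← gm_mul, ← gm_add, ← gm_add, ← gm_add, ← gm_sub]
    have hu2 : ∀ᶠ j in (φ : Filter ℕ), (x j : M) * x j * u j
        = (y j : M) * f' j - (((y j ^ 2 - x j ^ 3 : ℤ) : M) * g' j
          + ((y j ^ 2 - x j ^ 3 : ℤ) : M) * g' j) := by
      apply gm_eq
      have h1 := congrArg E hid
      rw [map_mul, map_mul, map_sub, map_add, map_mul, map_mul, hxE, hyE, hdE, ← huE, ← hf',
        ← hg'] at h1
      exact h1
    -- sizes of the derivatives
    have hf'n : ∀ σ : M ≃ₐ[ℚ] M, ∀ᶠ j in (φ : Filter ℕ),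
        P.nv none (σ (f' j)) ≤ X j ^ (1 / (2 + ε) + e) := by
      intro σ
      refine hDRV M S P φ X r w D _ f' δ none σ (1 / (2 + ε)) hS hX hw hI hDD
        hdE.symm hf' hvn ?_ e he0
      intro e' he'
      filter_upwards [hdx, hbig 2] with j h1 h2
      rw [map_intCast, hnvn]
      exact h1.trans (Real.rpow_le_rpow_of_exponent_le (by linarith) (by linarith))
    have hg'n : ∀ σ : M ≃ₐ[ℚ] M, ∀ᶠ j in (φ : Filter ℕ),
        P.nv none (σ (g' j)) ≤ X j ^ (3 / 2 + e) := by
      intro σ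
      refine hDRV M S P φ X r w G _ g' δ none σ (3 / 2) hS hX hw hI hG hyE.symm hg' hvn ?_ e he0
      intro e' he'
      filter_upwards [hyb, hbig 2, hpow 2 e' he'] with j h1 h2 h3
      have hXp : 0 < X j := by linarith
      rw [map_intCast, hnvn, Real.rpow_add hXp]
      have h4 : 0 < X j ^ (3 / 2 : ℝ) := Real.rpow_pos_of_pos hXp _
      nlinarith
    have hg'p : ∀ p ∈ S, ∀ σ : M ≃ₐ[ℚ] M, ∀ᶠ j in (φ : Filter ℕ),
        P.nv (some p) (σ (g' j)) ≤ X j ^ e := by
      intro p hp σ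
      have h1 := hDRV M S P φ X r w G _ g' δ (some p) σ 0 hS hX hw hI hG hyE.symm hg'
        (mem_some hp) ?_ e he0
      · rwa [zero_add] at h1
      · intro e' he'
        filter_upwards [hpow 1 e' he'] with j h3
        rw [map_intCast, zero_add]
        exact (P.int_le hAV hS hp _).trans h3
    have hh'p : ∀ p ∈ S, ∀ σ : M ≃ₐ[ℚ] M, ∀ᶠ j in (φ : Filter ℕ),
        P.nv (some p) (σ (h' j)) ≤ X j ^ e := by
      intro p hp σ
      have h1 := hDRV M S P φ X r w F _ h' δ (some p) σ 0 hS hX hw hI hF hxE.symm hh'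
        (mem_some hp) ?_ e he0
      · rwa [zero_add] at h1
      · intro e' he'
        filter_upwards [hpow 1 e' he'] with j h3
        rw [map_intCast, zero_add]
        exact (P.int_le hAV hS hp _).trans h3
    -- size of u
    have hun : ∀ σ : M ≃ₐ[ℚ] M, ∀ᶠ j in (φ : Filter ℕ),
        P.nv none (σ (u j)) ≤ X j ^ (-κ + 3 * e) := by
      intro σ
      filter_upwards [hu2, hf'n σ, hg'n σ, hdx, hyb, hbig 2, hpow 4 (2 * e) (by positivity)]
        with j h1 h2 h3 h4 h5 h6 h7
      have hXp : 0 < X j := by linarith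
      have h8 : X j ^ 2 * P.nv none (σ (u j)) ≤ 4 * X j ^ (3 / 2 + 1 / (2 + ε) + e) := by
        have h9 : X j ^ 2 * P.nv none (σ (u j)) = P.nv none (σ ((x j : M) * x j * u j)) := by
          rw [map_mul, map_mul, map_intCast, P.mul none hvn, P.mul none hvn, hnvn, hXdef]
          ring
        rw [h9, h1, map_sub, map_add, map_mul, map_mul, map_intCast, map_intCast]
        refine (P.sub hvn _ _).trans ?_
        have h10 := P.add none hvn (((y j ^ 2 - x j ^ 3 : ℤ) : M) * σ (g' j))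
          (((y j ^ 2 - x j ^ 3 : ℤ) : M) * σ (g' j))
        rw [P.mul none hvn, hnvn] at h10
        rw [P.mul none hvn, hnvn]
        have e1 : |(y j : ℝ)| * P.nv none (σ (f' j))
            ≤ 2 * X j ^ (3 / 2 : ℝ) * X j ^ (1 / (2 + ε) + e) :=
          mul_le_mul h5 h2 (P.nn _ _) (by positivity)
        have e2 : |((y j ^ 2 - x j ^ 3 : ℤ) : ℝ)| * P.nv none (σ (g' j))
            ≤ X j ^ (1 / (2 + ε)) * X j ^ (3 / 2 + e) :=
          mul_le_mul h4 h3 (P.nn _ _) (Real.rpow_nonneg hXp.le _)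
        have e3 : X j ^ (3 / 2 : ℝ) * X j ^ (1 / (2 + ε) + e)
            = X j ^ (3 / 2 + 1 / (2 + ε) + e) := by
          rw [← Real.rpow_add hXp]; congr 1; ring
        have e4 : X j ^ (1 / (2 + ε)) * X j ^ (3 / 2 + e)
            = X j ^ (3 / 2 + 1 / (2 + ε) + e) := by
          rw [← Real.rpow_add hXp]; congr 1; ring
        rw [mul_assoc, e3] at e1
        rw [e4] at e2
        linarith
      have h11 : X j ^ (-2 : ℝ) * X j ^ 2 = 1 := by
        rw [← Real.rpow_natCast (X j) 2, ← Real.rpow_add hXp]; norm_num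
      have h12 : 0 < X j ^ (-2 : ℝ) := Real.rpow_pos_of_pos hXp _
      calc P.nv none (σ (u j)) = X j ^ (-2 : ℝ) * (X j ^ 2 * P.nv none (σ (u j))) := by
            rw [← mul_assoc, h11, one_mul]
        _ ≤ X j ^ (-2 : ℝ) * (4 * X j ^ (3 / 2 + 1 / (2 + ε) + e)) :=
            mul_le_mul_of_nonneg_left h8 h12.le
        _ ≤ X j ^ (-2 : ℝ) * (X j ^ (2 * e) * X j ^ (3 / 2 + 1 / (2 + ε) + e)) := by
            refine mul_le_mul_of_nonneg_left ?_ h12.le
            exact mul_le_mul_of_nonneg_right h7 (Real.rpow_nonneg hXp.le _)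
        _ = X j ^ (-κ + 3 * e) := by
            rw [← Real.rpow_add hXp, ← Real.rpow_add hXp, hκ]
            congr 1; ring
    have hup : ∀ p ∈ S, ∀ σ : M ≃ₐ[ℚ] M, ∀ᶠ j in (φ : Filter ℕ),
        P.nv (some p) (σ (u j)) ≤ X j ^ e := by
      intro p hp σ
      filter_upwards [hg'p p hp σ, hh'p p hp σ] with j h1 h2
      have hv := mem_some hp
      have hxi : P.nv (some p) (x j : M) ≤ 1 := P.int_le hAV hS hp _
      have hyi : P.nv (some p) (y j : M) ≤ 1 := P.int_le hAV hS hp _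
      have hA : P.nv (some p) ((x j : M) * σ (g' j)) ≤ X j ^ e := by
        rw [P.mul _ hv]
        calc _ ≤ 1 * X j ^ e := mul_le_mul hxi h1 (P.nn _ _) zero_le_one
          _ = _ := one_mul _
      have hB : P.nv (some p) ((y j : M) * σ (h' j)) ≤ X j ^ e := by
        rw [P.mul _ hv]
        calc _ ≤ 1 * X j ^ e := mul_le_mul hyi h2 (P.nn _ _) zero_le_one
          _ = _ := one_mul _
      have h3 : σ (u j) = ((x j : M) * σ (g' j) + (x j : M) * σ (g' j))
          + (-((y j : M) * σ (h' j) + (y j : M) * σ (h' j) + (y j : M) * σ (h' j))) := by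
        rw [hu]
        simp only [map_sub, map_add, map_mul, map_intCast]
        ring
      rw [h3]
      refine (P.ult p hp _ _).trans (max_le ?_ ?_)
      · exact (P.ult p hp _ _).trans (max_le hA hA)
      · rw [P.neg hv]
        exact (P.ult p hp _ _).trans (max_le ((P.ult p hp _ _).trans (max_le hB hB)) hB)
    have hSlW : SlL P φ X W := by
      rw [hWdef]
      have h1 := (hop F (drM δ G) hF (hdr G δ hG)).2.2
      have h2 := (hop G (drM δ F) hG (hdr F δ hF)).2.2
      have h3 := (hop _ _ h1 h1).1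
      have h4 := (hop _ _ (hop _ _ h2 h2).1 h2).1
      exact (hop _ _ h3 h4).2.1
    -- u vanishes almost everywhere
    have hu0 : ∀ᶠ j in (φ : Filter ℕ), u j = 0 := by
      by_contra hne
      rw [← Ultrafilter.eventually_not] at hne
      have h1 := hNUM M S P φ X r w W u (κ / 4) hS hX hw hSlW huE hne (by positivity)
      have hall : ∀ᶠ j in (φ : Filter ℕ), ∀ v ∈ plc S, ∀ σ : M ≃ₐ[ℚ] M,
          P.nv v (σ (u j)) ≤ X j ^ (if v = none then -κ + 3 * e else e) := by
        rw [Filter.eventually_all_finset]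
        intro v hv
        rw [Filter.eventually_all]
        intro σ
        cases v with
        | none =>
          rw [if_pos rfl]
          exact hun σ
        | some p =>
          rw [if_neg (by simp)]
          exact hup p (of_mem_some hv) σ
      obtain ⟨j, h2, h3, h4⟩ := (h1.and (hall.and (hbig 2))).exists
      have hXp : 0 < X j := by linarith
      set d : ℕ := Fintype.card (M ≃ₐ[ℚ] M) with hd
      have hd1 : 1 ≤ d := Fintype.card_pos
      have h5 : ∏ v ∈ plc S, ∏ σ : M ≃ₐ[ℚ] M, P.nv v (σ (u j))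
          ≤ ∏ v ∈ plc S, ∏ _σ : M ≃ₐ[ℚ] M, X j ^ (if v = none then -κ + 3 * e else e) :=
        Finset.prod_le_prod (fun v _ => Finset.prod_nonneg fun σ _ => P.nn _ _) fun v hv =>
          Finset.prod_le_prod (fun σ _ => P.nn _ _) fun σ _ => h3 v hv σ
      have h6 : ∏ v ∈ plc S, ∏ _σ : M ≃ₐ[ℚ] M, X j ^ (if v = none then -κ + 3 * e else e)
          = X j ^ (-((d : ℝ) * (κ / 2))) := by
        have h7 : ∀ v ∈ plc S, ∏ _σ : M ≃ₐ[ℚ] M, X j ^ (if v = none then -κ + 3 * e else e)
            = X j ^ ((d : ℝ) * (if v = none then -κ + 3 * e else e)) := by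
          intro v _
          rw [Finset.prod_const, Finset.card_univ, ← Real.rpow_natCast, ← Real.rpow_mul hXp.le,
            mul_comm]
        rw [Finset.prod_congr rfl h7, ← Real.rpow_sum_of_pos hXp, ← Finset.mul_sum]
        congr 1
        rw [plc, Finset.sum_insertNone, if_pos rfl]
        have h8 : ∑ p ∈ S, (if (some p : Option ℕ) = none then -κ + 3 * e else e) = S.card * e := by
          rw [Finset.sum_congr rfl (g := fun _ => e) fun p _ => by rw [if_neg (by simp)],
            Finset.sum_const, nsmul_eq_mul]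
        rw [h8]
        have h9 : (3 + (S.card : ℝ)) * e = κ / 2 := by
          rw [he]
          have : (0 : ℝ) < 3 + S.card := by positivity
          field_simp
        have h10 : -κ + 3 * e + S.card * e = -(κ / 2) := by linarith
        rw [h10]; ring
      rw [h6] at h5
      have h11 := h2.trans h5
      have h12 : X j ^ (-((d : ℝ) * (κ / 2))) < X j ^ (-(κ / 4)) := by
        apply Real.rpow_lt_rpow_of_exponent_lt (by linarith)
        have : (1 : ℝ) ≤ d := by exact_mod_cast hd1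
        nlinarith
      linarith
    -- so W = 0
    by_contra hWne
    have hne : W.coeff ≠ 0 := fun h => hWne (AddMonoidAlgebra.coeff_eq_zero.mp h)
    obtain ⟨m, hm⟩ := Finsupp.support_nonempty_iff.mpr hne
    have h1 := hLAUW M S P φ X r w W u none AlgEquiv.refl 1 hS hX hw hI hSlW huE hvn one_pos m hm
    have h2 : ∀ᶠ j in (φ : Filter ℕ), ∀ k, w k j ≠ 0 := by
      rw [Filter.eventually_all]
      exact fun k => (hw k).1.mono fun j hj => hj.1
    obtain ⟨j, h3, h4, h5, h6⟩ := (h1.and (h2.and (hu0.and (hbig 2)))).exists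
    have hXp : 0 < X j := by linarith
    rw [h5, map_zero, P.nz] at h3
    have h7 : 0 < P.nv none (monM (fun k => w k j) m) :=
      P.pos none hvn _ (monM_ne (fun k => w k j) h4 m)
    have h8 : 0 < X j ^ (-(1 : ℝ)) := Real.rpow_pos_of_pos hXp _
    have h9 := mul_pos h7 h8
    exact absurd h3 (not_le.mpr h9)
  -- D is a multiple of G^2
  have hprop : ∀ δ : Fin r → ℤ, D * drM δ (G * G) = (G * G) * drM δ D := by
    intro δ
    have h1 := hW δ
    rw [hD, drM_sub, drM_mul, drM_mul, drM_mul]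
    have h2 : (G * G - F * F * F) * (G * drM δ G + drM δ G * G)
        - G * G * (G * drM δ G + drM δ G * G - (F * F * drM δ F + (F * drM δ F + drM δ F * F) * F))
        = - (F * F * G) * (F * drM δ G + F * drM δ G
          - (G * drM δ F + G * drM δ F + G * drM δ F)) := by ring
    rw [h1, mul_zero] at h2
    exact sub_eq_zero.mp h2
  have hyne : ∀ᶠ j in (φ : Filter ℕ), (y j : M) ≠ 0 := by
    filter_upwards [hy2, hbig 2] with j h1 h2 h0
    have h4 : y j = 0 := by exact_mod_cast h0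
    have h5 := h1.1
    rw [h4] at h5
    have hXp : 0 < X j := by linarith
    have : 0 < X j ^ 3 := by positivity
    push_cast at h5
    linarith [sq_nonneg (0 : ℝ)]
  have hGGne : G * G ≠ 0 := by
    intro h
    have h1 := congrArg E h
    rw [map_mul, map_zero, hyE] at h1
    exact gm_ne hyne (mul_self_eq_zero.mp h1)
  obtain ⟨c, hc⟩ := hLAU1 (UP M φ) r D (G * G) hGGne hprop
  -- the factor is slow
  have hcs : SlG P φ X c := by
    have hne : (G * G).coeff ≠ 0 := fun h => hGGne (AddMonoidAlgebra.coeff_eq_zero.mp h)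
    obtain ⟨m, hm⟩ := Finsupp.support_nonempty_iff.mpr hne
    have h1 : (G * G).coeff m ≠ 0 := Finsupp.mem_support_iff.mp hm
    have h2 : D.coeff m = c * (G * G).coeff m := by
      rw [hc, AddMonoidAlgebra.coeff_smul, Finsupp.smul_apply, smul_eq_mul]
    have h3 : c = D.coeff m / (G * G).coeff m := by
      rw [h2, mul_div_assoc, div_self h1, mul_one]
    rw [h3]
    have hGG : SlL P φ X (G * G) := (hop G G hG hG).2.2
    exact (hq _ _ (hDD m) (hGG m)).2.2.2
  obtain ⟨z, hz, hzc⟩ := hcs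
  have hval : ∀ᶠ j in (φ : Filter ℕ),
      ((y j ^ 2 - x j ^ 3 : ℤ) : M) = z j * ((y j : M) * (y j : M)) := by
    apply gm_eq
    rw [← hdE, hc]
    have h1 : E (c • (G * G)) = c * (E G * E G) := by
      show evM _ _ = _
      rw [evM_smul, ← evR_apply _ hwne, map_mul]
    rw [h1, hyE, ← hzc, ← gm_mul, ← gm_mul]
  have hz0 : ∀ᶠ j in (φ : Filter ℕ), z j ≠ 0 := by
    filter_upwards [hval, hxy] with j h1 h2 h0
    rw [h0, zero_mul] at h1
    have h3 : (y j ^ 2 - x j ^ 3 : ℤ) = 0 := by exact_mod_cast h1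
    exact h2.1 (sub_eq_zero.mp h3)
  have hlow := (hSLW M S P φ X hS hX).2.2.2.2.2.1 z hz hz0 none hvn AlgEquiv.refl 1 one_pos
  obtain ⟨j, h1, h2, h3, h4, h5⟩ := (hval.and (hlow.and (hsq.and (hy2.and (hbig 2))))).exists
  have hXp : 0 < X j := by linarith
  have h6 : |((y j ^ 2 - x j ^ 3 : ℤ) : ℝ)| = P.nv none (z j) * (y j : ℝ) ^ 2 := by
    rw [← hnvn, h1, P.mul none hvn, P.mul none hvn, hnvn, abs_mul_abs_self, sq]
  have h7 : X j ^ (-(1 : ℝ)) ≤ P.nv none (z j) := h2
  rw [h6] at h3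
  have h8 : X j ^ (-(1 : ℝ)) * (X j ^ 3 / 2) ≤ X j := by
    refine le_trans ?_ h3
    exact mul_le_mul h7 h4.1 (by positivity) (P.nn _ _)
  rw [Real.rpow_neg_one] at h8
  have h9 : (X j)⁻¹ * (X j ^ 3 / 2) = X j ^ 2 / 2 := by
    field_simp
  rw [h9] at h8
  nlinarith

end Pool.Agent.Helper66.SUBW
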